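import Pool.Agent.Helper84.P11.FastC

/-!
# A fast kernel check for the sums `nS` modulo 11 (Kronecker substitution)

`N = ∑_t (Y^121 + κ(t) (1 + Y)^x(t) (1 + Y^11)^y(t))`, `Y = 2^40`.
-/

set_option autoImplicit false

namespace Pool.Agent.Helper94.P11

open Pool.Agent.Helper84.P11

/-- The digit base. -/
def Y1 : ℕ := 1099511627776
def Y11 : ℕ := Nat.pow Y1 11
def Y121 : ℕ := Nat.pow Y11 11

/-- The value of a term. -/
noncomputable def vl (t : Tm) : ℕ :=
  sq (rk t.2.1) fun A => sq (rk t.2.2.1) fun B => sq (rk t.2.2.2.1) fun C => sq (rk t.2.2.2.2) fun D =>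
    sq (rk t.1) fun K => Nat.mul K (Nat.mul (Nat.pow (Nat.add 1 Y1) (Nat.mod (Nat.mul B (Nat.pow A 9)) 11))
      (Nat.pow (Nat.add 1 Y11) (Nat.mod (Nat.mul C (Nat.pow D 9)) 11)))

/-- The sum of the values. -/
noncomputable def lp (L : List Tm) : ℕ → ℕ :=
  @List.rec Tm (fun _ => ℕ → ℕ) (fun acc => acc)
    (fun t _ ih acc => sq (Nat.add acc (Nat.add Y121 (vl t))) ih) L

/-- The digits. -/
def dN (N j i : ℕ) : ℕ :=
  Nat.mod (Nat.div (Nat.mod (Nat.div N (Nat.pow Y11 j)) Y11) (Nat.pow Y1 i)) Y1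

/-- Comparison of the digits. -/
noncomputable def ckN (N n : ℕ) (want : ℕ → ℕ → ℤ) : Bool :=
  Nat.ble (Nat.succ (Nat.div N Y121)) 65536 && (List.range (n + 1)).all fun i =>
    (List.range (n + 1)).all fun j =>
      Nat.ble (n + 1) (Nat.add i j) || Nat.beq (Nat.mod (dN N j i) 11) (rk (want i j))

/-- The check. -/
noncomputable def fastN (L : List Tm) (n : ℕ) (want : ℕ → ℕ → ℤ) : Bool :=
  sq (lp L 0) fun N => ckN N n want

private theorem rk_eq' (z : ℤ) : ((rk z : ℕ) : ℤ) = z % 11 := by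
  cases z with
  | ofNat n =>
    change (((n % 11 : ℕ)) : ℤ) = (n : ℤ) % 11
    omega
  | negSucc n =>
    change (((10 - n % 11 : ℕ)) : ℤ) = Int.negSucc n % 11
    rw [Int.negSucc_eq]
    omega

private theorem rk_me (z : ℤ) : ((rk z : ℕ) : ℤ) ≡ z [ZMOD 11] := by
  rw [rk_eq']
  exact Int.mod_modEq z 11

private def xx (t : Tm) : ℕ := ((t.2.2.1 * t.2.1 ^ 9) % 11).toNat
private def yy (t : Tm) : ℕ := ((t.2.2.2.1 * t.2.2.2.2 ^ 9) % 11).toNat

private theorem xx_lt (t : Tm) : xx t < 11 := by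
  unfold xx
  have := Int.emod_lt_of_pos (t.2.2.1 * t.2.1 ^ 9) (by norm_num : (0 : ℤ) < 11)
  have := Int.emod_nonneg (t.2.2.1 * t.2.1 ^ 9) (by norm_num : (11 : ℤ) ≠ 0)
  omega

private theorem yy_lt (t : Tm) : yy t < 11 := by
  unfold yy
  have := Int.emod_lt_of_pos (t.2.2.2.1 * t.2.2.2.2 ^ 9) (by norm_num : (0 : ℤ) < 11)
  have := Int.emod_nonneg (t.2.2.2.1 * t.2.2.2.2 ^ 9) (by norm_num : (11 : ℤ) ≠ 0)
  omega

private theorem res_eq (b a : ℤ) : rk b * rk a ^ 9 % 11 = ((b * a ^ 9) % 11).toNat := by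
  have h : ((rk b * rk a ^ 9 % 11 : ℕ) : ℤ) = (b * a ^ 9) % 11 := by
    push_cast
    exact (rk_me b).mul ((rk_me a).pow 9)
  have h2 := Int.emod_nonneg (b * a ^ 9) (by norm_num : (11 : ℤ) ≠ 0)
  omega

private theorem vl_eq (t : Tm) : vl t = rk t.1 * ((1 + Y1) ^ xx t * (1 + Y11) ^ yy t) := by
  have h0 : vl t = rk t.1 * ((1 + Y1) ^ (rk t.2.2.1 * rk t.2.1 ^ 9 % 11) *
      (1 + Y11) ^ (rk t.2.2.2.1 * rk t.2.2.2.2 ^ 9 % 11)) := by
    unfold vl
    simp only [sq_eq]
    rfl
  rw [h0, res_eq, res_eq]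
  rfl

private theorem lt_pow (b n : ℕ) (f : ℕ → ℕ) (hf : ∀ i < n, f i < b) :
    ∑ i ∈ Finset.range n, f i * b ^ i < b ^ n := by
  induction n with
  | zero => simp
  | succ n ih =>
    rw [Finset.sum_range_succ, pow_succ]
    have h1 := ih fun i hi => hf i (by omega)
    have h2 : (f n + 1) * b ^ n ≤ b * b ^ n := Nat.mul_le_mul_right _ (hf n (by omega))
    have h3 : (f n + 1) * b ^ n = f n * b ^ n + b ^ n := by ring
    have h4 : b * b ^ n = b ^ n * b := by ring
    omega

private theorem dig (b n : ℕ) (f : ℕ → ℕ) (hf : ∀ i < n, f i < b) (m : ℕ) (hm : m < n) :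
    (∑ i ∈ Finset.range n, f i * b ^ i) / b ^ m % b = f m := by
  have hb : 0 < b := by have := hf m hm; omega
  obtain ⟨k, rfl⟩ : ∃ k, n = m + (k + 1) := ⟨n - m - 1, by omega⟩
  rw [Finset.sum_range_add]
  have e : ∑ x ∈ Finset.range (k + 1), f (m + x) * b ^ (m + x) =
      b ^ m * (b * (∑ x ∈ Finset.range k, f (m + (x + 1)) * b ^ x) + f m) := by
    rw [Finset.sum_range_succ', mul_add, Finset.mul_sum, Finset.mul_sum, add_zero]
    congr 1
    · refine Finset.sum_congr rfl fun x _ => ?_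
      rw [← add_assoc, pow_add, pow_add, pow_one]
      ring
    · ring
  rw [e, Nat.add_mul_div_left _ _ (pow_pos hb m),
    Nat.div_eq_of_lt (lt_pow b m f fun i hi => hf i (by omega)), zero_add, Nat.mul_add_mod]
  exact Nat.mod_eq_of_lt (hf m hm)

private theorem swap (L : List Tm) (n : ℕ) (F : Tm → ℕ → ℕ) (c : ℕ → ℕ) :
    (L.map fun t => ∑ i ∈ Finset.range n, F t i * c i).sum =
      ∑ i ∈ Finset.range n, (L.map fun t => F t i).sum * c i := by
  induction L with
  | nil => simp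
  | cons t L ih => simp only [List.map_cons, List.sum_cons, ih, add_mul, Finset.sum_add_distrib]

private noncomputable def T2 (j i : ℕ) (t : Tm) : ℕ :=
  rk t.1 * ((xx t).choose i * (yy t).choose j)
private noncomputable def T1 (j : ℕ) (t : Tm) : ℕ :=
  if j = 11 then 1 else rk t.1 * ((1 + Y1) ^ xx t * (yy t).choose j)

private theorem bin (b x : ℕ) (hx : x < 11) :
    (1 + b) ^ x = ∑ i ∈ Finset.range 11, x.choose i * b ^ i := by
  rw [add_comm, add_pow]
  have h : Finset.range (x + 1) ⊆ Finset.range 11 := Finset.range_mono (by omega)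
  rw [← Finset.sum_subset h]
  · exact Finset.sum_congr rfl fun i _ => by rw [one_pow, mul_one, mul_comm]; simp
  · intro i _ hi
    rw [Finset.mem_range, not_lt] at hi
    rw [Nat.choose_eq_zero_of_lt (by omega), zero_mul]

private theorem s1 (j : ℕ) (hj : j < 11) (t : Tm) :
    T1 j t = ∑ i ∈ Finset.range 11, T2 j i t * Y1 ^ i := by
  unfold T1 T2
  rw [if_neg (by omega), bin Y1 (xx t) (xx_lt t), Finset.sum_mul, Finset.mul_sum]
  exact Finset.sum_congr rfl fun i _ => by ring

private theorem s0 (t : Tm) : Y121 + vl t = ∑ j ∈ Finset.range 12, T1 j t * Y11 ^ j := by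
  have h : Y121 = Y11 ^ 11 := rfl
  rw [vl_eq, h, Finset.sum_range_succ]
  have h4 : T1 11 t = 1 := by unfold T1; rw [if_pos rfl]
  have hs : ∑ j ∈ Finset.range 11, T1 j t * Y11 ^ j =
      rk t.1 * ((1 + Y1) ^ xx t * (1 + Y11) ^ yy t) := by
    rw [bin Y11 (yy t) (yy_lt t), Finset.mul_sum, Finset.mul_sum]
    refine Finset.sum_congr rfl fun j hj => ?_
    unfold T1
    rw [if_neg (by have := Finset.mem_range.1 hj; omega)]
    ring
  rw [h4, hs, one_mul, add_comm]

private theorem lp_eq (L : List Tm) (acc : ℕ) :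
    lp L acc = acc + (L.map fun t => Y121 + vl t).sum := by
  induction L generalizing acc with
  | nil => rfl
  | cons t L ih =>
    have h : lp (t :: L) acc = sq (acc + (Y121 + vl t)) (lp L) := rfl
    rw [h, sq_eq, ih, List.map_cons, List.sum_cons]
    ring

private theorem ch_le (x i : ℕ) (hx : x < 11) : x.choose i ≤ 1024 :=
  (Nat.choose_le_two_pow x i).trans (Nat.pow_le_pow_right (by norm_num) (by omega : x ≤ 10))

private theorem T2_le (j i : ℕ) (t : Tm) : T2 j i t ≤ 10485760 := by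
  unfold T2
  have h1 : rk t.1 ≤ 10 := by
    have h := rk_eq' t.1
    have := Int.emod_lt_of_pos t.1 (by norm_num : (0 : ℤ) < 11)
    omega
  calc rk t.1 * ((xx t).choose i * (yy t).choose j) ≤ 10 * (1024 * 1024) :=
        Nat.mul_le_mul h1 (Nat.mul_le_mul (ch_le _ _ (xx_lt t)) (ch_le _ _ (yy_lt t)))
    _ = 10485760 := by norm_num

private theorem sum_le (L : List Tm) (f : Tm → ℕ) (c : ℕ) (h : ∀ t, f t ≤ c) :
    (L.map f).sum ≤ L.length * c := by
  induction L with
  | nil => simp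
  | cons t L ih =>
    rw [List.map_cons, List.sum_cons, List.length_cons, add_mul, one_mul]
    have := h t
    omega

private theorem le_sum (L : List Tm) (f : Tm → ℕ) (c : ℕ) (h : ∀ t, c ≤ f t) :
    L.length * c ≤ (L.map f).sum := by
  induction L with
  | nil => simp
  | cons t L ih =>
    rw [List.map_cons, List.sum_cons, List.length_cons, add_mul, one_mul]
    have := h t
    omega

private theorem Y11_pow : Y1 ^ 11 = Y11 := rfl

private theorem dN_eq (L : List Tm) (hL : L.length < 65536) (j i : ℕ) (hj : j < 11) (hi : i < 11) :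
    dN (lp L 0) j i = (L.map fun t => T2 j i t).sum := by
  have b2 : ∀ j i, (L.map fun t => T2 j i t).sum < Y1 := fun j i => by
    have h := sum_le L (fun t => T2 j i t) 10485760 (T2_le j i)
    unfold Y1
    omega
  have b1 : ∀ j < 12, (L.map fun t => T1 j t).sum < Y11 := fun j hj => by
    by_cases h4 : j = 11
    · have h := sum_le L (fun t => T1 j t) 1 (fun t => by unfold T1; rw [if_pos h4])
      have h1 : Y1 ^ 1 ≤ Y1 ^ 11 := Nat.pow_le_pow_right (by unfold Y1; norm_num) (by norm_num)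
      have h3 : Y1 = 1099511627776 := rfl
      rw [pow_one, Y11_pow] at h1
      omega
    · have h := lt_pow Y1 11 _ fun i _ => b2 j i
      rw [← swap, Y11_pow] at h
      simp only [← s1 j (by omega)] at h
      exact h
  have d0 : lp L 0 / Y11 ^ j % Y11 = (L.map fun t => T1 j t).sum := by
    rw [lp_eq, zero_add]
    simp only [s0]
    rw [swap]
    exact dig Y11 12 _ b1 j (by omega)
  have d1 : (L.map fun t => T1 j t).sum / Y1 ^ i % Y1 = (L.map fun t => T2 j i t).sum := by
    simp only [s1 j hj]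
    rw [swap]
    exact dig Y1 11 _ (fun i _ => b2 j i) i hi
  rw [← d1, ← d0]
  rfl

private theorem T2_nS (L : List Tm) (j i : ℕ) :
    (11 : ℤ) ∣ nS L i j - (((L.map fun t => T2 j i t).sum : ℕ) : ℤ) := by
  induction L with
  | nil => simp [nS]
  | cons t L ih =>
    have e : nS (t :: L) i j = (t.1 : ℤ) * (((xx t).choose i * (yy t).choose j : ℕ) : ℤ) +
        nS L i j := rfl
    rw [e, List.map_cons, List.sum_cons, Nat.cast_add]
    have h : (11 : ℤ) ∣ (t.1 : ℤ) * (((xx t).choose i * (yy t).choose j : ℕ) : ℤ) -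
        ((T2 j i t : ℕ) : ℤ) := by
      unfold T2
      have h1 := (rk_me t.1).mul (Int.ModEq.refl
        ((((xx t).choose i * (yy t).choose j : ℕ)) : ℤ))
      have h2 := h1.dvd
      rw [Nat.cast_mul (rk t.1)]
      exact h2
    have e3 : ∀ a b c d : ℤ, a + b - (c + d) = (a - c) + (b - d) := fun a b c d => by ring
    rw [e3]
    exact dvd_add h ih

/-- The fast check is correct. -/
theorem nS_fast (L : List Tm) (n : ℕ) (hn : n < 11) (want : ℕ → ℕ → ℤ) (h : fastN L n want = true) :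
    ∀ i j : ℕ, i + j ≤ n → (11 : ℤ) ∣ nS L i j - want i j := by
  intro i j hij
  unfold fastN at h
  rw [sq_eq] at h
  unfold ckN at h
  rw [Bool.and_eq_true, List.all_eq_true] at h
  obtain ⟨h1, h2⟩ := h
  have h3 := h2 i (List.mem_range.2 (by omega))
  rw [List.all_eq_true] at h3
  have h3' := h3 j (List.mem_range.2 (by omega))
  rw [Bool.or_eq_true] at h3'
  have h4 : dN (lp L 0) j i % 11 = rk (want i j) := by
    rcases h3' with h | h
    · have : n + 1 ≤ i + j := Nat.le_of_ble_eq_true h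
      omega
    · exact Nat.eq_of_beq_eq_true h
  have h5 : lp L 0 / Y121 < 65536 := Nat.le_of_ble_eq_true h1
  have hX : 0 < Y121 := pow_pos (pow_pos (by unfold Y1; norm_num) _) _
  have hL : L.length < 65536 := by
    have h6 : L.length * Y121 ≤ lp L 0 := by
      rw [lp_eq, zero_add]
      exact le_sum L _ _ fun t => Nat.le_add_right _ _
    exact lt_of_le_of_lt ((Nat.le_div_iff_mul_le hX).2 h6) h5
  rw [dN_eq L hL j i (by omega) (by omega)] at h4
  have h7 := T2_nS L j i
  have h8 : (((L.map fun s => T2 j i s).sum % 11 : ℕ) : ℤ) = want i j % 11 := by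
    rw [← rk_eq', ← h4]
  have h9 : (11 : ℤ) ∣ (((L.map fun s => T2 j i s).sum : ℕ) : ℤ) - want i j := by
    generalize (L.map fun s => T2 j i s).sum = S at h8 ⊢
    omega
  have e : nS L i j - want i j =
      (nS L i j - (((L.map fun s => T2 j i s).sum : ℕ) : ℤ)) +
      ((((L.map fun s => T2 j i s).sum : ℕ) : ℤ) - want i j) := by
    ring
  rw [e]
  exact dvd_add h7 h9

end Pool.Agent.Helper94.P11
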