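import Pool.Agent.Helper4.P11.StD
import Pool.Agent.Helper94.P11.FastN

/-!
# Project P11, module CeO: the finite certificate CEO

One pass over every list (`FastN`), kernel computations.
-/

set_option autoImplicit false
set_option maxRecDepth 1000000

namespace Pool.Agent.Helper94.P11

open Pool.Agent.Helper4.P11 Pool.Agent.Helper84.P11

private noncomputable def wt (c f : ℕ) (i j : ℕ) : ℤ := if i + j = nOM c then qOM c f j else 0

private theorem e00 : fastN (BOM 0 0) (nOM 0) (wt 0 0) = true := by decide +kernel
private theorem e01 : fastN (BOM 0 1) (nOM 0) (wt 0 1) = true := by decide +kernel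
private theorem e02 : fastN (BOM 0 2) (nOM 0) (wt 0 2) = true := by decide +kernel
private theorem e10 : fastN (BOM 1 0) (nOM 1) (wt 1 0) = true := by decide +kernel
private theorem e11 : fastN (BOM 1 1) (nOM 1) (wt 1 1) = true := by decide +kernel
private theorem e12 : fastN (BOM 1 2) (nOM 1) (wt 1 2) = true := by decide +kernel
private theorem e20 : fastN (BOM 2 0) (nOM 2) (wt 2 0) = true := by decide +kernel
private theorem e21 : fastN (BOM 2 1) (nOM 2) (wt 2 1) = true := by decide +kernel
private theorem e22 : fastN (BOM 2 2) (nOM 2) (wt 2 2) = true := by decide +kernel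
private theorem e30 : fastN (BOM 3 0) (nOM 3) (wt 3 0) = true := by decide +kernel
private theorem e31 : fastN (BOM 3 1) (nOM 3) (wt 3 1) = true := by decide +kernel
private theorem e32 : fastN (BOM 3 2) (nOM 3) (wt 3 2) = true := by decide +kernel
private theorem e40 : fastN (BOM 4 0) (nOM 4) (wt 4 0) = true := by decide +kernel
private theorem e41 : fastN (BOM 4 1) (nOM 4) (wt 4 1) = true := by decide +kernel
private theorem e42 : fastN (BOM 4 2) (nOM 4) (wt 4 2) = true := by decide +kernel
private theorem e50 : fastN (BOM 5 0) (nOM 5) (wt 5 0) = true := by decide +kernel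
private theorem e51 : fastN (BOM 5 1) (nOM 5) (wt 5 1) = true := by decide +kernel
private theorem e52 : fastN (BOM 5 2) (nOM 5) (wt 5 2) = true := by decide +kernel
private theorem e60 : fastN (BOM 6 0) (nOM 6) (wt 6 0) = true := by decide +kernel
private theorem e61 : fastN (BOM 6 1) (nOM 6) (wt 6 1) = true := by decide +kernel
private theorem e62 : fastN (BOM 6 2) (nOM 6) (wt 6 2) = true := by decide +kernel
private theorem e70 : fastN (BOM 7 0) (nOM 7) (wt 7 0) = true := by decide +kernel
private theorem e71 : fastN (BOM 7 1) (nOM 7) (wt 7 1) = true := by decide +kernel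
private theorem e72 : fastN (BOM 7 2) (nOM 7) (wt 7 2) = true := by decide +kernel
private theorem e80 : fastN (BOM 8 0) (nOM 8) (wt 8 0) = true := by decide +kernel
private theorem e81 : fastN (BOM 8 1) (nOM 8) (wt 8 1) = true := by decide +kernel
private theorem e82 : fastN (BOM 8 2) (nOM 8) (wt 8 2) = true := by decide +kernel
private theorem e90 : fastN (BOM 9 0) (nOM 9) (wt 9 0) = true := by decide +kernel
private theorem e91 : fastN (BOM 9 1) (nOM 9) (wt 9 1) = true := by decide +kernel
private theorem e92 : fastN (BOM 9 2) (nOM 9) (wt 9 2) = true := by decide +kernel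

private theorem all_ok : ∀ c ≤ 9, ∀ f : Fin 3, fastN (BOM c f) (nOM c) (wt c f.val) = true := by
  intro c hc f
  interval_cases c
  · exact match f with
    | 0 => e00
    | 1 => e01
    | 2 => e02
  · exact match f with
    | 0 => e10
    | 1 => e11
    | 2 => e12
  · exact match f with
    | 0 => e20
    | 1 => e21
    | 2 => e22
  · exact match f with
    | 0 => e30
    | 1 => e31
    | 2 => e32
  · exact match f with
    | 0 => e40
    | 1 => e41
    | 2 => e42
  · exact match f with
    | 0 => e50
    | 1 => e51
    | 2 => e52
  · exact match f with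
    | 0 => e60
    | 1 => e61
    | 2 => e62
  · exact match f with
    | 0 => e70
    | 1 => e71
    | 2 => e72
  · exact match f with
    | 0 => e80
    | 1 => e81
    | 2 => e82
  · exact match f with
    | 0 => e90
    | 1 => e91
    | 2 => e92

/-- Certificate CEO. -/
theorem hCeO : TCeO := by
  intro c hc f i _ j _ hij
  have hn : nOM c < 11 := by
    interval_cases c <;> decide
  exact nS_fast (BOM c f) (nOM c) hn (wt c f.val) (all_ok c hc f) i j hij

end Pool.Agent.Helper94.P11
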